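import Mathlib

/-!
# Buchberger's algorithm over the integers with S-polynomials is not correct

For `F = {3, 8}` the critical pair is `(1, -4)`, the S-polynomial is `5`, and `5 → -3 → 0`
(first subtract `8`, then add `3`).  So Algorithm A' may stop at once with `{3, 8}`, which is
not a Gröbner basis: `4` reduces to both `1` and `-1`.
-/

open MvPolynomial

namespace Pool.Agent.Results.MP_698df0_al.AlgorithmFails

universe u

/-- The order `0 ≺ -1 ≺ 1 ≺ -2 ≺ 2 ≺ …` of the integers. -/
def Prec (a b : ℤ) : Prop :=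
  a.natAbs < b.natAbs ∨ (a.natAbs = b.natAbs ∧ a < b)

instance (a b : ℤ) : Decidable (Prec a b) := by unfold Prec; infer_instance

/-- The position of an integer in the order `≺`. -/
def rank (a : ℤ) : ℕ := 2 * a.natAbs + if 0 < a then 1 else 0

theorem rank_lt {a b : ℤ} (h : Prec a b) : rank a < rank b := by
  unfold rank
  rcases h with h | ⟨h, h'⟩
  · split <;> split <;> omega
  · split <;> split <;> omega

/-- The multiplier `M(a, c)`. -/
def M (a c : ℤ) : ℤ :=
  if _h : 0 < a * c ∧ Prec (a - c) a then M (a - c) c + 1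
  else if _h : a * c < 0 ∧ Prec (a + c) a then M (a + c) c - 1
  else 0
termination_by rank a
decreasing_by
  · exact rank_lt _h.2
  · exact rank_lt _h.2

/-- `L(c) = |c| / 2` for even `c` and `-(|c| + 1) / 2` for odd `c`. -/
def L (c : ℤ) : ℤ := if Even c then |c| / 2 else -((|c| + 1) / 2)

/-- `LCR(c₁, c₂)`, the maximum of `L(c₁)` and `L(c₂)` in the order `≺`. -/
def LCR (c₁ c₂ : ℤ) : ℤ := if Prec (L c₁) (L c₂) then L c₂ else L c₁

/-- The ring `ℤ[x_1, …, x_n]`. -/
abbrev R (n : ℕ) : Type := MvPolynomial (Fin n) ℤ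

section

variable {n : ℕ} (m : MonomialOrder.{0, u} (Fin n))

/-- One reduction step `g →_F h`. -/
def Red (F : Finset (R n)) (g h : R n) : Prop :=
  ∃ f ∈ F, f ≠ 0 ∧ ∃ (b : ℤ) (v : Fin n →₀ ℕ),
    coeff (v + m.degree f) g ≠ 0 ∧
    Prec (coeff (v + m.degree f) g - b * m.leadingCoeff f) (coeff (v + m.degree f) g) ∧
    h = g - C b * monomial v 1 * f

/-- `g →_F^* h`. -/
def RedStar (F : Finset (R n)) (g h : R n) : Prop := Relation.ReflTransGen (Red m F) g h

/-- `g` is irreducible modulo `F`. -/
def Irred (F : Finset (R n)) (g : R n) : Prop := ∀ h, ¬ Red m F g h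

/-- A normal form algorithm. -/
def IsNormalForm (S : Finset (R n) → R n → R n) : Prop :=
  ∀ F g, RedStar m F g (S F g) ∧ Irred m F (S F g)

/-- `F` is a Gröbner basis: every `g` has exactly one irreducible element reachable from it. -/
def IsGroebner (F : Finset (R n)) : Prop :=
  ∀ g, ∃! h, RedStar m F g h ∧ Irred m F h

/-- The component `p_i = a U - M(a, c_i) u_i f_i` of the critical pair of two polynomials, where
`f` is the polynomial `f_i` and `U` the least common multiple of the leading power products. -/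
noncomputable def critComponent (a : ℤ) (U : Fin n →₀ ℕ) (f : R n) : R n :=
  C a * monomial U 1 - C (M a (m.leadingCoeff f)) * monomial (U - m.degree f) 1 * f

/-- The S-polynomial `p₁ - p₂` of `f₁` and `f₂`, where `(p₁, p₂)` is their critical pair. -/
noncomputable def SPoly (f₁ f₂ : R n) : R n :=
  critComponent m (LCR (m.leadingCoeff f₁) (m.leadingCoeff f₂)) (m.degree f₁ ⊔ m.degree f₂) f₁ -
  critComponent m (LCR (m.leadingCoeff f₁) (m.leadingCoeff f₂)) (m.degree f₁ ⊔ m.degree f₂) f₂

/-- The states of Algorithm A': the current `G` and the current set `B` of unordered pairs. -/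
abbrev State (n : ℕ) : Type := Set (R n) × Set (Sym2 (R n))

/-- The initial state: `G = F` and `B` is the set of all pairs of different elements of `F`. -/
def initial (F : Finset (R n)) : State n :=
  (F, {z | ∃ f₁ ∈ F, ∃ f₂ ∈ F, f₁ ≠ f₂ ∧ z = s(f₁, f₂)})

/-- One pass through the loop of Algorithm A', for the normal form algorithm `S`: a pair
`{f₁, f₂}` is chosen and removed from `B`; with `h' = S(G, p₁ - p₂)`, if `h' = 0` nothing else is
done, and otherwise all pairs `{g, h'}` with `g ∈ G` are added to `B` and `h'` is added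
to `G`. -/
def Step (S : Finset (R n) → R n → R n) (x y : State n) : Prop :=
  ∃ (G : Finset (R n)) (f₁ f₂ : R n), x.1 = G ∧ s(f₁, f₂) ∈ x.2 ∧
    ((S G (SPoly m f₁ f₂) = 0 ∧ y = (x.1, x.2 \ {s(f₁, f₂)})) ∨
     (S G (SPoly m f₁ f₂) ≠ 0 ∧
      y = (x.1 ∪ {S G (SPoly m f₁ f₂)},
        (x.2 \ {s(f₁, f₂)}) ∪ {z | ∃ g ∈ x.1, z = s(g, S G (SPoly m f₁ f₂))})))

/-- The state `y` is reached from the state `x` by some passes through the loop. -/
def Reaches (S : Finset (R n) → R n → R n) (x y : State n) : Prop :=
  Relation.ReflTransGen (Step m S) x y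

theorem prec_wf : WellFounded Prec :=
  Subrelation.wf (fun h => rank_lt h) (measure rank).wf

/-- Reduction terminates. -/
theorem red_wf (F : Finset (R n)) : WellFounded (fun h g => Red m F g h) := by
  have hwf : WellFounded (Finsupp.Lex (fun i j : Fin n →₀ ℕ => m.toSyn j < m.toSyn i) Prec) := by
    have : Std.Trichotomous (fun i j : Fin n →₀ ℕ => m.toSyn j < m.toSyn i) := by
      constructor
      intro a b h1 h2
      exact m.toSyn.injective (le_antisymm (not_lt.1 h1) (not_lt.1 h2))
    apply Finsupp.Lex.wellFounded'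
    · intro k hk
      rcases hk with hk | ⟨hk, hk'⟩
      · simp at hk
      · simp at hk
        rw [hk] at hk'
        exact lt_irrefl _ hk'
    · exact prec_wf
    · exact InvImage.wf m.toSyn wellFounded_lt
  refine Subrelation.wf ?_ (InvImage.wf (fun g : R n => AddMonoidAlgebra.coeff g) hwf)
  rintro h g ⟨f, hf, hf0, b, v, hc, hp, rfl⟩
  refine ⟨v + m.degree f, ?_, ?_⟩
  · intro j hj
    show coeff j (g - C b * monomial v 1 * f) = coeff j g
    rw [coeff_sub, mul_assoc, coeff_C_mul, coeff_monomial_mul']
    split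
    · rename_i hvj
      have h1 : m.toSyn (m.degree f) < m.toSyn (j - v) := by
        have h2 : v + (j - v) = j := add_tsub_cancel_of_le hvj
        rw [← h2, map_add, map_add] at hj
        exact lt_of_add_lt_add_left hj
      rw [m.coeff_eq_zero_of_lt h1]
      simp
    · simp
  · show Prec (coeff (v + m.degree f) (g - C b * monomial v 1 * f)) (coeff (v + m.degree f) g)
    rw [coeff_sub, mul_assoc, coeff_C_mul, coeff_monomial_mul, one_mul]
    exact hp

theorem exists_nf (F : Finset (R n)) (g : R n) : ∃ h, RedStar m F g h ∧ Irred m F h := by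
  induction g using (red_wf m F).induction with
  | _ g ih =>
    by_cases hg : Irred m F g
    · exact ⟨g, Relation.ReflTransGen.refl, hg⟩
    · unfold Irred at hg
      push Not at hg
      obtain ⟨h, hh⟩ := hg
      obtain ⟨k, hk1, hk2⟩ := ih h hh
      exact ⟨k, Relation.ReflTransGen.head hh hk1, hk2⟩

/-- The input `{3, 8}`. -/
noncomputable def F38 : Finset (R n) := {C 3, C 8}

theorem F38_cases {f : R n} (hf : f ∈ (F38 : Finset (R n))) : f = C 3 ∨ f = C 8 := by
  simpa [F38] using hf

open Classical in
/-- A normal form algorithm that sends `5` and `-5` to `0` modulo `{3, 8}`. -/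
noncomputable def S₀ (F : Finset (R n)) (g : R n) : R n :=
  if F = F38 ∧ (g = C 5 ∨ g = C (-5)) then 0 else (exists_nf m F g).choose

theorem irred_zero (F : Finset (R n)) : Irred m F 0 := by
  rintro h ⟨f, _, _, b, v, hc, _⟩
  simp at hc

theorem red_C {a b c : ℤ} (hc : c = 3 ∨ c = 8) (ha : a ≠ 0) (h : Prec (a - b * c) a) :
    Red m (F38 : Finset (R n)) (C a) (C (a - b * c)) := by
  have hc0 : (C c : R n) ≠ 0 := by
    rw [Ne, C_eq_zero]
    omega
  refine ⟨C c, ?_, hc0, b, 0, ?_, ?_, ?_⟩
  · rcases hc with rfl | rfl <;> simp [F38]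
  · rw [m.degree_C, add_zero, coeff_C, if_pos rfl]
    exact ha
  · rw [m.degree_C, m.leadingCoeff_C, add_zero, coeff_C, if_pos rfl]
    exact h
  · rw [map_sub, map_mul]
    simp

theorem five_red : RedStar m (F38 : Finset (R n)) (C 5) 0 := by
  have h1 := red_C (n := n) m (a := 5) (b := 1) (c := 8) (Or.inr rfl) (by norm_num) (by decide)
  have h2 := red_C (n := n) m (a := -3) (b := -1) (c := 3) (Or.inl rfl) (by norm_num) (by decide)
  norm_num at h1 h2
  exact Relation.ReflTransGen.head (by simpa using h1)
    (Relation.ReflTransGen.single (by simpa using h2))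

theorem neg_five_red : RedStar m (F38 : Finset (R n)) (C (-5)) 0 := by
  have h1 := red_C (n := n) m (a := -5) (b := -1) (c := 8) (Or.inr rfl) (by norm_num) (by decide)
  have h2 := red_C (n := n) m (a := 3) (b := 1) (c := 3) (Or.inl rfl) (by norm_num) (by decide)
  norm_num at h1 h2
  exact Relation.ReflTransGen.head (by simpa using h1)
    (Relation.ReflTransGen.single (by simpa using h2))

theorem S₀_nf : IsNormalForm m (S₀ m) := by
  intro F g
  unfold S₀
  split
  · rename_i h
    obtain ⟨rfl, h⟩ := h
    refine ⟨?_, irred_zero m _⟩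
    rcases h with rfl | rfl
    · exact five_red m
    · exact neg_five_red m
  · exact (exists_nf m F g).choose_spec

theorem M43 : M 4 3 = 1 := by
  rw [M, dif_pos (by decide), M, dif_neg (by decide), dif_neg (by decide)]
  norm_num

theorem M48 : M 4 8 = 1 := by
  rw [M, dif_pos (by decide), M, dif_neg (by decide), dif_neg (by decide)]
  norm_num

theorem LCR38 : LCR 3 8 = 4 := by decide

theorem LCR83 : LCR 8 3 = 4 := by decide

theorem SPoly38 : SPoly m (C 3 : R n) (C 8) = C 5 := by
  unfold SPoly critComponent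
  rw [m.leadingCoeff_C, m.leadingCoeff_C, m.degree_C, m.degree_C, LCR38, M43, M48]
  simp only [map_one, sup_idem, tsub_zero, monomial_zero', one_mul, mul_one]
  rw [← map_sub, ← map_sub, ← map_sub]
  norm_num

theorem SPoly83 : SPoly m (C 8 : R n) (C 3) = C (-5) := by
  unfold SPoly critComponent
  rw [m.leadingCoeff_C, m.leadingCoeff_C, m.degree_C, m.degree_C, LCR83, M43, M48]
  simp only [map_one, sup_idem, tsub_zero, monomial_zero', one_mul, mul_one]
  rw [← map_sub, ← map_sub, ← map_sub]
  norm_num

theorem C3_ne_C8 : (C 3 : R n) ≠ C 8 := by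
  intro h
  have := C_injective _ _ h
  norm_num at this

/-- The only step from the initial state goes to `(F, ∅)`. -/
theorem step_initial {y : State n} : Step m (S₀ m) (initial F38) y ↔
    y = (((F38 : Finset (R n)) : Set (R n)), ∅) := by
  have hB : (initial (F38 : Finset (R n))).2 = {s(C 3, C 8)} := by
    ext z
    simp only [initial, Set.mem_ofPred_eq, Set.mem_singleton_iff]
    constructor
    · rintro ⟨f₁, h₁, f₂, h₂, hne, rfl⟩
      rcases F38_cases h₁ with rfl | rfl <;> rcases F38_cases h₂ with rfl | rfl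
      · exact absurd rfl hne
      · rfl
      · exact Sym2.eq_swap
      · exact absurd rfl hne
    · rintro rfl
      exact ⟨C 3, by simp [F38], C 8, by simp [F38], C3_ne_C8, rfl⟩
  have hS : ∀ f₁ f₂ : R n, s(f₁, f₂) = s(C 3, C 8) → S₀ m F38 (SPoly m f₁ f₂) = 0 := by
    intro f₁ f₂ h
    rw [Sym2.eq_iff] at h
    unfold S₀
    rcases h with ⟨rfl, rfl⟩ | ⟨rfl, rfl⟩
    · rw [SPoly38, if_pos ⟨rfl, Or.inl rfl⟩]
    · rw [SPoly83, if_pos ⟨rfl, Or.inr rfl⟩]
  constructor
  · rintro ⟨G, f₁, f₂, hG, hmem, h⟩
    have hG' : G = F38 := by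
      have : ((F38 : Finset (R n)) : Set (R n)) = G := hG
      exact_mod_cast this.symm
    subst hG'
    rw [hB, Set.mem_singleton_iff] at hmem
    rcases h with ⟨_, rfl⟩ | ⟨h, _⟩
    · rw [hB, hmem]
      simp [initial]
    · exact absurd (hS _ _ hmem) h
  · rintro rfl
    refine ⟨F38, C 3, C 8, rfl, by rw [hB]; rfl, Or.inl ⟨hS _ _ rfl, ?_⟩⟩
    rw [hB]
    simp [initial]

theorem no_step_empty {G : Set (R n)} {y : State n} : ¬ Step m (S₀ m) (G, ∅) y := by
  rintro ⟨_, f₁, f₂, _, h, _⟩
  exact h

/-- `1` and `-1` are irreducible modulo `{3, 8}`. -/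
theorem irred_one {a : ℤ} (ha : a = 1 ∨ a = -1) : Irred m (F38 : Finset (R n)) (C a) := by
  rintro h ⟨f, hf, _, b, v, hc, hp, _⟩
  have hdeg : m.degree f = 0 := by
    rcases F38_cases hf with rfl | rfl <;> rw [m.degree_C]
  rw [hdeg, add_zero, coeff_C] at hc hp
  have hv : 0 = v := by
    by_contra hne
    rw [if_neg hne] at hc
    exact hc rfl
  rw [if_pos hv] at hc hp
  unfold Prec at hp
  rcases F38_cases hf with rfl | rfl <;> rw [m.leadingCoeff_C] at hp <;> omega

theorem not_groebner : ¬ IsGroebner m (F38 : Finset (R n)) := by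
  intro h
  obtain ⟨k, -, hk⟩ := h (C 4)
  have h1 := red_C (n := n) m (a := 4) (b := 1) (c := 3) (Or.inl rfl) (by norm_num) (by decide)
  have h2 := red_C (n := n) m (a := 4) (b := 1) (c := 8) (Or.inr rfl) (by norm_num) (by decide)
  have h3 := red_C (n := n) m (a := -4) (b := -1) (c := 3) (Or.inl rfl) (by norm_num) (by decide)
  norm_num only at h1 h2 h3
  have e1 := hk (C 1) ⟨Relation.ReflTransGen.single h1, irred_one m (Or.inl rfl)⟩
  have e2 := hk (C (-1)) ⟨Relation.ReflTransGen.head h2 (Relation.ReflTransGen.single h3),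
    irred_one m (Or.inr rfl)⟩
  rw [← e2] at e1
  have := C_injective _ _ e1
  norm_num at this

end

/-- For every number of variables and every admissible term ordering there are a finite set `F`
and a normal form algorithm `S` such that Algorithm A' with input `F, S` and any choice rule
terminates, and every set that it can output is not a Gröbner basis. -/
theorem result (n : ℕ) (m : MonomialOrder.{0, u} (Fin n)) :
    ∃ (F : Finset (R n)) (S : Finset (R n) → R n → R n), IsNormalForm m S ∧
      (¬ ∃ run : ℕ → State n, run 0 = initial F ∧ ∀ k, Step m S (run k) (run (k + 1))) ∧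
      (∃ G : Finset (R n), Reaches m S (initial F) ((G : Set (R n)), ∅)) ∧
      ∀ G : Finset (R n), Reaches m S (initial F) ((G : Set (R n)), ∅) → ¬ IsGroebner m G := by
  refine ⟨F38, S₀ m, S₀_nf m, ?_, ⟨F38, ?_⟩, ?_⟩
  · rintro ⟨run, h0, h⟩
    have h1 := h 0
    rw [h0, step_initial] at h1
    have h2 := h 1
    rw [h1] at h2
    exact no_step_empty m h2
  · exact Relation.ReflTransGen.single ((step_initial m).2 rfl)
  · intro G hG
    have hGF : G = F38 := by
      rcases Relation.ReflTransGen.cases_head hG with h | ⟨y, hy, hy'⟩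
      · have := congrArg Prod.fst h
        simp only [initial] at this
        exact_mod_cast this.symm
      · rw [step_initial] at hy
        subst hy
        rcases Relation.ReflTransGen.cases_head hy' with h | ⟨z, hz, _⟩
        · have := congrArg Prod.fst h
          simp only at this
          exact_mod_cast this.symm
        · exact absurd hz (no_step_empty m)
    rw [hGF]
    exact not_groebner m

end Pool.Agent.Results.MP_698df0_al.AlgorithmFails
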